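import Pool.Agent.MPba3ff3.Kac

set_option autoImplicit false

namespace Pool.Agent.Results.MP_ba3ff3_pr.ErgodicProtocol

open Pool.Agent.MPba3ff3
open scoped ENNReal Classical

/-- Poisson probability of `k` arrivals in a slot. -/
noncomputable def pois (lam : ℝ) (k : ℕ) : ℝ := Real.exp (-lam) * lam ^ k / (k.factorial : ℝ)

/-- Probability that exactly one of `w` packets attempts, each independently with probability
`p`. -/
noncomputable def hit (w : ℕ) (p : ℝ) : ℝ := (w : ℝ) * p * (1 - p) ^ (w - 1)

/-- One-step transition probability from `x = (W_n, p_n)` to `y = (W_(n+1), p_(n+1))`: a success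
(probability `hit`) removes one packet and the new attempt probability is `f p_n true`, otherwise
it is `f p_n false`; a Poisson number of packets is added. -/
noncomputable def trans (lam : ℝ) (f : ℝ → Bool → ℝ) (x y : ℕ × ℝ) : ℝ :=
  (if x.1 ≤ y.1 + 1 ∧ f x.2 true = y.2 then hit x.1 x.2 * pois lam (y.1 + 1 - x.1) else 0) +
  (if x.1 ≤ y.1 ∧ f x.2 false = y.2 then (1 - hit x.1 x.2) * pois lam (y.1 - x.1) else 0)

/-- `y` can be reached from `x` (in any number of steps, `0` included). -/
def Leads (lam : ℝ) (f : ℝ → Bool → ℝ) : ℕ × ℝ → ℕ × ℝ → Prop :=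
  Relation.ReflTransGen fun x y => 0 < trans lam f x y

/-- Probability that the chain started at `x` is not in the state `z` at any of the times
`1, ..., n`. -/
noncomputable def away (lam : ℝ) (f : ℝ → Bool → ℝ) (z : ℕ × ℝ) : ℕ → ℕ × ℝ → ℝ≥0∞
  | 0, _ => 1
  | n + 1, x => ∑' y : ℕ × ℝ,
      if y = z then 0 else ENNReal.ofReal (trans lam f x y) * away lam f z n y

/-- Expected time of the first return to `z`: the sum over `n ≥ 0` of the probabilities that
there is no visit at the times `1, ..., n`, for the chain started at `z`. -/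
noncomputable def meanReturn (lam : ℝ) (f : ℝ → Bool → ℝ) (z : ℕ × ℝ) : ℝ≥0∞ :=
  ∑' n : ℕ, away lam f z n z

/-- the embedding of the coded chain -/
noncomputable def io (x : ℕ × ℕ × ℕ) : ℕ × ℝ := (x.1, enc x.2)

theorem io_injective : Function.Injective io := by
  rintro ⟨w, s⟩ ⟨w', s'⟩ h
  simp only [io, Prod.mk.injEq] at h
  rw [h.1, enc_injective h.2]

theorem P_ne_top (x y : ℕ × ℕ × ℕ) : P x y ≠ ∞ :=
  ne_top_of_le_ne_top ENNReal.one_ne_top ((ENNReal.le_tsum y).trans (P_row x).le)

theorem trans_io (x y : ℕ × ℕ × ℕ) : trans lam upd (io x) (io y) = (P x y).toReal := by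
  obtain ⟨w, s⟩ := x
  obtain ⟨w', s'⟩ := y
  rw [P_explicit_real]
  unfold trans io
  simp only [upd_enc, if_true, Bool.false_eq_true, if_false]
  have e1 : (enc (sS s) = enc s') ↔ sS s = s' := enc_injective.eq_iff
  have e2 : (enc (sF s) = enc s') ↔ sF s = s' := enc_injective.eq_iff
  congr 1
  · exact if_congr (and_congr_right fun _ => e1) rfl rfl
  · exact if_congr (and_congr_right fun _ => e2) rfl rfl

theorem trans_out (x : ℕ × ℕ × ℕ) (y : ℕ × ℝ) (hy : y ∉ Set.range io) :
    trans lam upd (io x) y = 0 := by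
  have h : ∀ b, upd (io x).2 b ≠ y.2 := by
    intro b hb
    apply hy
    simp only [io] at hb
    rw [upd_enc] at hb
    exact ⟨(y.1, if b then sS x.2 else sF x.2), Prod.ext rfl hb⟩
  unfold trans
  rw [if_neg (fun h' => h true h'.2), if_neg (fun h' => h false h'.2), add_zero]

theorem away_io (z : ℕ × ℕ × ℕ) (n : ℕ) (x : ℕ × ℕ × ℕ) :
    away lam upd (io z) n (io x) = av P z n x := by
  induction n generalizing x with
  | zero => rfl
  | succ n ih =>
    show (∑' y : ℕ × ℝ, if y = io z then 0
      else ENNReal.ofReal (trans lam upd (io x) y) * away lam upd (io z) n y) = _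
    rw [← io_injective.tsum_eq]
    · simp only [av]
      refine tsum_congr fun y => ?_
      rw [ih, trans_io, ENNReal.ofReal_toReal (P_ne_top x y)]
      by_cases h : y = z
      · rw [if_pos h, if_pos (congrArg io h)]
      · rw [if_neg h, if_neg (fun h' => h (io_injective h'))]
    · intro y hy
      by_contra hcon
      apply hy
      show (if y = io z then 0
        else ENNReal.ofReal (trans lam upd (io x) y) * away lam upd (io z) n y) = 0
      rw [trans_out x y hcon]
      simp

theorem pos_iff (x y : ℕ × ℕ × ℕ) : 0 < trans lam upd (io x) (io y) ↔ Rel x y := by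
  rw [trans_io, ENNReal.toReal_pos_iff]
  constructor
  · rintro ⟨h, _⟩
    exact h.ne'
  · intro h
    exact ⟨pos_iff_ne_zero.mpr h, lt_top_iff_ne_top.mpr (P_ne_top x y)⟩

theorem leads_of_lead {x y : ℕ × ℕ × ℕ} (h : Lead x y) : Leads lam upd (io x) (io y) := by
  induction h with
  | refl => exact Relation.ReflTransGen.refl
  | tail _ h ih => exact ih.tail ((pos_iff _ _).mpr h)

theorem lead_of_leads {x : ℕ × ℕ × ℕ} {y : ℕ × ℝ} (h : Leads lam upd (io x) y) :
    ∃ y', y = io y' ∧ Lead x y' := by
  induction h with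
  | refl => exact ⟨x, rfl, Relation.ReflTransGen.refl⟩
  | @tail b c _ hbc ih =>
    obtain ⟨b', rfl, hb⟩ := ih
    have hc : c ∈ Set.range io := by
      by_contra hcon
      rw [trans_out b' c hcon] at hbc
      exact lt_irrefl _ hbc
    obtain ⟨c', rfl⟩ := hc
    exact ⟨c', rfl, hb.tail ((pos_iff _ _).mp hbc)⟩

/-- There is an ergodic protocol with success/no success feedback (arrival rate `1/1000`), in the
strict sense of the theory of Markov chains on a countable set: the states reachable from
`(0, p₁)` form an irreducible aperiodic class with finite expected return times, and it contains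
`(w, p₁)` for every number `w` of packets. -/
theorem result :
    ∃ (f : ℝ → Bool → ℝ) (p₁ : ℝ), p₁ ∈ Set.Ioo (0 : ℝ) 1 ∧
      (∀ p ∈ Set.Icc (0 : ℝ) 1, ∀ b : Bool, f p b ∈ Set.Ioo (0 : ℝ) 1) ∧
      (∀ w : ℕ, Leads (1 / 1000) f (0, p₁) (w, p₁)) ∧
      (∀ x, Leads (1 / 1000) f (0, p₁) x → Leads (1 / 1000) f x (0, p₁)) ∧
      (∀ x, Leads (1 / 1000) f (0, p₁) x → meanReturn (1 / 1000) f x < ∞) ∧
      (∃ x, Leads (1 / 1000) f (0, p₁) x ∧ 0 < trans (1 / 1000) f x x) := by
  have hl : (1 / 1000 : ℝ) = lam := rfl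
  rw [hl]
  refine ⟨upd, enc (0, 6999), ⟨enc_pos _, enc_lt_one _⟩, ?_, ?_, ?_, ?_, ?_⟩
  · intro p _ b
    unfold upd
    split_ifs <;> exact ⟨enc_pos _, enc_lt_one _⟩
  · intro w
    exact leads_of_lead (lead_all w)
  · intro x hx
    obtain ⟨x', rfl, _⟩ := lead_of_leads (x := (0, 0, 6999)) hx
    exact leads_of_lead (lead_zero x')
  · intro x hx
    obtain ⟨x', rfl, hx'⟩ := lead_of_leads (x := (0, 0, 6999)) hx
    unfold meanReturn
    simp_rw [away_io]
    exact return_finite x' hx'
  · exact ⟨io (1, 0, 6999), leads_of_lead (lead_all 1), (pos_iff _ _).mpr rel_loop⟩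

end Pool.Agent.Results.MP_ba3ff3_pr.ErgodicProtocol
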